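import Pool.Agent.MP_a6f858_co.AU.Gen

namespace Pool.Agent.Results.MP_a6f858_co.AllUniform

/-- For all `r, n` with `2 ≤ r ≤ n - 2` some finite matroid `M` has arbitrarily large
intertwines with the uniform matroid of rank `r` on `n` points. -/
theorem result : ∀ r n : ℕ, 2 ≤ r → r + 2 ≤ n →
    ∃ M : Matroid ℕ, M.Finite ∧ ∀ B : ℕ, ∃ N : Matroid ℕ, N.Finite ∧
      ((∃ N₁ : Matroid ℕ, Matroid.IsMinor N₁ N ∧
          ∃ f : ℕ → ℕ, Set.BijOn f N₁.E M.E ∧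
            ∀ I ⊆ N₁.E, (N₁.Indep I ↔ M.Indep (f '' I))) ∧
       (∃ N₂ : Matroid ℕ, Matroid.IsMinor N₂ N ∧ N₂.E.Finite ∧ N₂.E.ncard = n ∧
            ∀ I ⊆ N₂.E, (N₂.Indep I ↔ I.ncard ≤ r)) ∧
       (∀ N' : Matroid ℕ, Matroid.IsMinor N' N → N' ≠ N →
          ¬ ((∃ N₁ : Matroid ℕ, Matroid.IsMinor N₁ N' ∧
                ∃ f : ℕ → ℕ, Set.BijOn f N₁.E M.E ∧
                  ∀ I ⊆ N₁.E, (N₁.Indep I ↔ M.Indep (f '' I))) ∧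
             (∃ N₂ : Matroid ℕ, Matroid.IsMinor N₂ N' ∧ N₂.E.Finite ∧ N₂.E.ncard = n ∧
                ∀ I ⊆ N₂.E, (N₂.Indep I ↔ I.ncard ≤ r))))) ∧
      B < N.E.ncard :=
  fun _ _ h1 h2 => Pool.Agent.MP_a6f858_co.AU.unb_all h1 h2

end Pool.Agent.Results.MP_a6f858_co.AllUniform
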